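import Mathlib

set_option autoImplicit false

/-!
# MP_4dddeb: both questions have a negative answer

For the suitable set `{2K_2}` the edge-maximal minor-free graphs on `n ≥ 4` vertices are the star
(with `n - 1` edges) and the triangle plus isolated vertices (with `3` edges).
-/

namespace Pool.Agent.Results.MP_4dddeb_co.TwoDisjointEdges

open SimpleGraph Filter Topology

/-- `H` is a minor of `G`: there are pairwise disjoint, nonempty, connected branch sets of `G`,
one for each vertex of `H`, with an edge of `G` between any two branch sets whose vertices are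
adjacent in `H`. -/
def IsMinor {W V : Type} (H : SimpleGraph W) (G : SimpleGraph V) : Prop :=
  ∃ B : W → Set V, (∀ w, (G.induce (B w)).Connected) ∧
    (∀ w w', w ≠ w' → Disjoint (B w) (B w')) ∧
    ∀ w w', H.Adj w w' → ∃ x ∈ B w, ∃ y ∈ B w', G.Adj x y

/-- A suitable set: a nonempty set of finite graphs, each with at least one edge. -/
def Suitable (𝓗 : Set (Σ k : ℕ, SimpleGraph (Fin k))) : Prop :=
  𝓗.Nonempty ∧ ∀ H ∈ 𝓗, ∃ u v, H.2.Adj u v

/-- `G` has no minor in `𝓗`. -/
def MinorFree (𝓗 : Set (Σ k : ℕ, SimpleGraph (Fin k))) {V : Type} (G : SimpleGraph V) : Prop :=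
  ∀ H ∈ 𝓗, ¬ IsMinor H.2 G

/-- `G` is edge-maximal `𝓗`-free. -/
def EdgeMaximal (𝓗 : Set (Σ k : ℕ, SimpleGraph (Fin k))) {V : Type} (G : SimpleGraph V) : Prop :=
  MinorFree 𝓗 G ∧ ∀ u v, u ≠ v → ¬ G.Adj u v → ¬ MinorFree 𝓗 (G ⊔ edge u v)

/-- `E_𝓗(n)`. -/
def edgeNumbers (𝓗 : Set (Σ k : ℕ, SimpleGraph (Fin k))) (n : ℕ) : Set ℕ :=
  {m | ∃ G : SimpleGraph (Fin n), EdgeMaximal 𝓗 G ∧ G.edgeSet.ncard = m}

/-- `gap_𝓗(n) = max E_𝓗(n) - min E_𝓗(n)`. -/
noncomputable def gap (𝓗 : Set (Σ k : ℕ, SimpleGraph (Fin k))) (n : ℕ) : ℕ :=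
  sSup (edgeNumbers 𝓗 n) - sInf (edgeNumbers 𝓗 n)

/-! ### the graph `2K_2` -/

def twoEdges : SimpleGraph (Fin 4) where
  Adj x y := x ≠ y ∧ x.val / 2 = y.val / 2
  symm := ⟨fun _ _ h => ⟨h.1.symm, h.2.symm⟩⟩
  loopless := ⟨fun _ h => h.1 rfl⟩

def fam : Set (Σ k : ℕ, SimpleGraph (Fin k)) := {⟨4, twoEdges⟩}

/-- two disjoint edges -/
def HasPair {V : Type} (G : SimpleGraph V) : Prop :=
  ∃ a b c d, G.Adj a b ∧ G.Adj c d ∧ a ≠ c ∧ a ≠ d ∧ b ≠ c ∧ b ≠ d

theorem isMinor_iff {V : Type} (G : SimpleGraph V) : IsMinor twoEdges G ↔ HasPair G := by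
  constructor
  · rintro ⟨B, _, hd, he⟩
    obtain ⟨a, ha, b, hb, hab⟩ := he 0 1 ⟨by decide, by decide⟩
    obtain ⟨c, hc, d, hd', hcd⟩ := he 2 3 ⟨by decide, by decide⟩
    have key : ∀ (i j : Fin 4) (x y : V), i ≠ j → x ∈ B i → y ∈ B j → x ≠ y := by
      intro i j x y hij hx hy hxy
      subst hxy
      exact Set.disjoint_left.1 (hd i j hij) hx hy
    exact ⟨a, b, c, d, hab, hcd, key 0 2 _ _ (by decide) ha hc, key 0 3 _ _ (by decide) ha hd',
      key 1 2 _ _ (by decide) hb hc, key 1 3 _ _ (by decide) hb hd'⟩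
  · rintro ⟨a, b, c, d, hab, hcd, h1, h2, h3, h4⟩
    refine ⟨fun i => {![a, b, c, d] i}, ?_, ?_, ?_⟩
    · intro w
      have : Nonempty ({![a, b, c, d] w} : Set V) := ⟨⟨_, rfl⟩⟩
      have hs : Subsingleton ({![a, b, c, d] w} : Set V) :=
        ⟨fun x y => Subtype.ext (x.2.trans y.2.symm)⟩
      exact ⟨fun x y => by rw [Subsingleton.elim x y]⟩
    · intro w w' hww
      rw [Set.disjoint_singleton]
      have h5 := hab.ne
      have h6 := hcd.ne
      fin_cases w <;> fin_cases w' <;> simp at hww ⊢ <;>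
        first | assumption | (apply Ne.symm; assumption)
    · rintro w w' ⟨hw1, hw2⟩
      refine ⟨_, rfl, _, rfl, ?_⟩
      fin_cases w <;> fin_cases w' <;> simp at hw1 hw2 ⊢ <;>
        first | assumption | (symm; assumption)

theorem minorFree_iff {V : Type} (G : SimpleGraph V) : MinorFree fam G ↔ ¬ HasPair G := by
  unfold MinorFree fam
  simp only [Set.mem_singleton_iff, forall_eq]
  rw [isMinor_iff]

theorem suitable_fam : Suitable fam := by
  refine ⟨⟨_, rfl⟩, ?_⟩
  rintro H rfl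
  exact ⟨(0 : Fin 4), (1 : Fin 4), by decide, by decide⟩

/-! ### stars -/

theorem no_pair_of_centre {V : Type} (G : SimpleGraph V) (c : V)
    (h : ∀ x y, G.Adj x y → x = c ∨ y = c) : ¬ HasPair G := by
  rintro ⟨a, b, d, e, hab, hde, h1, h2, h3, h4⟩
  rcases h a b hab with rfl | rfl
  · rcases h d e hde with rfl | rfl
    · exact h1 rfl
    · exact h2 rfl
  · rcases h d e hde with rfl | rfl
    · exact h3 rfl
    · exact h4 rfl

theorem edge_adj' {V : Type} (u v x y : V) :
    (edge u v).Adj x y ↔ ((x = u ∧ y = v) ∨ (x = v ∧ y = u)) ∧ x ≠ y := by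
  rw [edge_adj]

theorem card_star {n : ℕ} (G : SimpleGraph (Fin n)) (c : Fin n)
    (h : ∀ x y, G.Adj x y → x = c ∨ y = c) (h' : ∀ x, x ≠ c → G.Adj c x) :
    G.edgeSet.ncard = n - 1 := by
  have he : G.edgeSet = (fun x => s(c, x)) '' ({c}ᶜ : Set (Fin n)) := by
    ext e
    induction e using Sym2.ind with
    | _ x y =>
      rw [mem_edgeSet, Set.mem_image]
      constructor
      · intro hxy
        rcases h x y hxy with rfl | rfl
        · exact ⟨y, hxy.ne.symm, rfl⟩
        · exact ⟨x, hxy.ne, Sym2.eq_swap⟩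
      · rintro ⟨z, hz, hzz⟩
        have := h' z hz
        rw [← mem_edgeSet, ← hzz]
        exact this
  rw [he, Set.ncard_image_of_injective]
  · rw [Set.ncard_compl, Set.ncard_singleton, Nat.card_eq_fintype_card, Fintype.card_fin]
  · intro x y hxy
    exact Sym2.congr_right.1 hxy

theorem card_triangle {n : ℕ} (G : SimpleGraph (Fin n)) (a b c : Fin n)
    (hab : G.Adj a b) (hbc : G.Adj b c) (hac : G.Adj a c)
    (h : ∀ x y, G.Adj x y → (x = a ∨ x = b ∨ x = c) ∧ (y = a ∨ y = b ∨ y = c)) :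
    G.edgeSet.ncard = 3 := by
  have he : G.edgeSet = {s(a, b), s(b, c), s(a, c)} := by
    ext e
    induction e using Sym2.ind with
    | _ x y =>
      rw [mem_edgeSet]
      simp only [Set.mem_insert_iff, Set.mem_singleton_iff, Sym2.eq_iff]
      constructor
      · intro hxy
        have h1 := hxy.ne
        rcases h x y hxy with ⟨rfl | rfl | rfl, rfl | rfl | rfl⟩ <;> simp at h1 ⊢
      · rintro ((⟨rfl, rfl⟩ | ⟨rfl, rfl⟩) | (⟨rfl, rfl⟩ | ⟨rfl, rfl⟩) | (⟨rfl, rfl⟩ | ⟨rfl, rfl⟩))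
        · exact hab
        · exact hab.symm
        · exact hbc
        · exact hbc.symm
        · exact hac
        · exact hac.symm
  have h1 := hab.ne
  have h2 := hbc.ne
  have h3 := hac.ne
  rw [he, Set.ncard_insert_of_notMem, Set.ncard_pair]
  · simp only [ne_eq, Sym2.eq_iff, not_or, not_and]
    constructor
    · intro h; exact absurd h.symm h1
    · intro _ h5; exact h3 h5.symm
  · simp only [Set.mem_insert_iff, Set.mem_singleton_iff, Sym2.eq_iff, not_or, not_and]
    refine ⟨⟨?_, ?_⟩, ⟨?_, ?_⟩⟩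
    · intro h; exact absurd h h1
    · intro h; exact absurd h h3
    · intro _ h; exact h2 h
    · intro h; exact absurd h h3

/-- The upper half of the classification. -/
theorem classify {n : ℕ} (hn : 4 ≤ n) (G : SimpleGraph (Fin n)) (hG : EdgeMaximal fam G) :
    G.edgeSet.ncard = 3 ∨ G.edgeSet.ncard = n - 1 := by
  obtain ⟨h1, h2⟩ := hG
  rw [minorFree_iff] at h1
  have h2' : ∀ u v, u ≠ v → ¬ G.Adj u v → HasPair (G ⊔ edge u v) := by
    intro u v huv hadj
    have := h2 u v huv hadj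
    rw [minorFree_iff, not_not] at this
    exact this
  by_cases htri : ∃ a b c, G.Adj a b ∧ G.Adj b c ∧ G.Adj a c
  · left
    obtain ⟨a, b, c, hab, hbc, hac⟩ := htri
    apply card_triangle G a b c hab hbc hac
    have hx : ∀ x y, G.Adj x y → (x = a ∨ x = b ∨ x = c) := by
      intro x y hxy
      by_contra hcon
      push Not at hcon
      obtain ⟨k1, k2, k3⟩ := hcon
      apply h1
      by_cases hya : y = a
      · subst hya
        exact ⟨x, y, b, c, hxy, hbc, k2, k3, hab.ne, hac.ne⟩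
      · by_cases hyb : y = b
        · subst hyb
          exact ⟨x, y, a, c, hxy, hac, k1, k3, hab.ne.symm, hbc.ne⟩
        · exact ⟨x, y, a, b, hxy, hab, k1, k2, hya, hyb⟩
    intro x y hxy
    exact ⟨hx x y hxy, hx y x hxy.symm⟩
  · right
    push Not at htri
    -- there is a centre
    have hc : ∃ c, ∀ x y, G.Adj x y → x = c ∨ y = c := by
      by_cases hdeg : ∃ a b c, G.Adj a b ∧ G.Adj a c ∧ b ≠ c
      · obtain ⟨a, b, c, hab, hac, hbc⟩ := hdeg
        refine ⟨a, ?_⟩
        intro x y hxy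
        by_contra hcon
        push Not at hcon
        obtain ⟨k1, k2⟩ := hcon
        -- `x y` meets `a b` and `a c`
        have m1 : x = b ∨ y = b := by
          by_contra hcon
          push Not at hcon
          exact h1 ⟨x, y, a, b, hxy, hab, k1, hcon.1, k2, hcon.2⟩
        have m2 : x = c ∨ y = c := by
          by_contra hcon
          push Not at hcon
          exact h1 ⟨x, y, a, c, hxy, hac, k1, hcon.1, k2, hcon.2⟩
        rcases m1 with rfl | rfl <;> rcases m2 with m2 | m2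
        · exact hbc m2
        · subst m2
          exact htri a x y hab hxy hac
        · subst m2
          exact htri a x y hac hxy hab
        · exact hbc m2
      · push Not at hdeg
        by_cases hex : ∃ a b, G.Adj a b
        · obtain ⟨a, b, hab⟩ := hex
          refine ⟨a, ?_⟩
          intro x y hxy
          by_contra hcon
          push Not at hcon
          obtain ⟨k1, k2⟩ := hcon
          have m1 : x = b ∨ y = b := by
            by_contra hcon
            push Not at hcon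
            exact h1 ⟨x, y, a, b, hxy, hab, k1, hcon.1, k2, hcon.2⟩
          rcases m1 with rfl | rfl
          · exact k2 (hdeg x y a hxy hab.symm)
          · exact k1 (hdeg y x a hxy.symm hab.symm)
        · push Not at hex
          exact ⟨⟨0, by omega⟩, fun x y hxy => absurd hxy (hex x y)⟩
    obtain ⟨c, hc⟩ := hc
    apply card_star G c hc
    intro x hx
    by_contra hcon
    refine no_pair_of_centre (G ⊔ edge c x) c ?_ (h2' c x (Ne.symm hx) hcon)
    intro u v huv
    rw [sup_adj, edge_adj'] at huv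
    rcases huv with huv | ⟨⟨rfl, rfl⟩ | ⟨rfl, rfl⟩, _⟩
    · exact hc u v huv
    · exact Or.inl rfl
    · exact Or.inr rfl

/-! ### the two extremal graphs -/

def star {n : ℕ} (c : Fin n) : SimpleGraph (Fin n) where
  Adj x y := x ≠ y ∧ (x = c ∨ y = c)
  symm := ⟨fun _ _ h => ⟨h.1.symm, h.2.symm⟩⟩
  loopless := ⟨fun _ h => h.1 rfl⟩

def tri {n : ℕ} : SimpleGraph (Fin n) where
  Adj x y := x ≠ y ∧ x.val < 3 ∧ y.val < 3
  symm := ⟨fun _ _ h => ⟨h.1.symm, h.2.2, h.2.1⟩⟩
  loopless := ⟨fun _ h => h.1 rfl⟩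

theorem mem_star {n : ℕ} (hn : 4 ≤ n) : n - 1 ∈ edgeNumbers fam n := by
  let c : Fin n := ⟨0, by omega⟩
  refine ⟨star c, ⟨?_, ?_⟩, ?_⟩
  · rw [minorFree_iff]
    exact no_pair_of_centre _ c fun x y h => h.2
  · intro u v huv hadj
    rw [minorFree_iff, not_not]
    have hu : u ≠ c ∧ v ≠ c := by
      constructor
      · intro h; exact hadj ⟨huv, Or.inl h⟩
      · intro h; exact hadj ⟨huv, Or.inr h⟩
    -- a fourth vertex
    have : ∃ z : Fin n, z ≠ c ∧ z ≠ u ∧ z ≠ v := by
      have hcard : ({c, u, v} : Finset (Fin n)).card < Fintype.card (Fin n) := by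
        rw [Fintype.card_fin]
        exact lt_of_le_of_lt Finset.card_le_three (by omega)
      obtain ⟨z, hz⟩ := Finset.exists_mem_notMem_of_card_lt_card
        (s := ({c, u, v} : Finset (Fin n))) (t := Finset.univ) (by rwa [Finset.card_univ])
      simp only [Finset.mem_univ, Finset.mem_insert, Finset.mem_singleton, not_or, true_and] at hz
      exact ⟨z, hz⟩
    obtain ⟨z, hz1, hz2, hz3⟩ := this
    refine ⟨u, v, c, z, ?_, ?_, hu.1, hz2.symm, hu.2, hz3.symm⟩
    · rw [sup_adj, edge_adj']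
      exact Or.inr ⟨Or.inl ⟨rfl, rfl⟩, huv⟩
    · exact Or.inl ⟨hz1.symm, Or.inl rfl⟩
  · exact card_star _ c (fun x y h => h.2) (fun x h => ⟨h.symm, Or.inl rfl⟩)

theorem mem_tri {n : ℕ} (hn : 4 ≤ n) : 3 ∈ edgeNumbers fam n := by
  have hcard : (tri (n := n)).edgeSet.ncard = 3 := by
    apply card_triangle (tri (n := n)) ⟨0, by omega⟩ ⟨1, by omega⟩ ⟨2, by omega⟩
    · exact ⟨by simp, by simp, by simp⟩
    · exact ⟨by simp, by simp, by simp⟩
    · exact ⟨by simp, by simp, by simp⟩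
    · rintro x y ⟨_, hx, hy⟩
      simp only [Fin.ext_iff]
      omega
  refine ⟨tri, ⟨?_, ?_⟩, hcard⟩
  · rw [minorFree_iff]
    rintro ⟨a, b, c, d, ⟨hab, ha, hb⟩, ⟨hcd, hc, hd⟩, h1, h2, h3, h4⟩
    rw [Ne, Fin.ext_iff] at hab hcd h1 h2 h3 h4
    omega
  · intro u v huv hadj
    rw [minorFree_iff, not_not]
    have hout : 3 ≤ u.val ∨ 3 ≤ v.val := by
      by_contra hcon
      push Not at hcon
      exact hadj ⟨huv, hcon.1, hcon.2⟩
    have key : ∀ u v : Fin n, u ≠ v → 3 ≤ u.val → HasPair (tri ⊔ edge u v) := by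
      intro u v huv hu
      have hedge : (tri ⊔ edge u v).Adj u v := by
        rw [sup_adj, edge_adj']
        exact Or.inr ⟨Or.inl ⟨rfl, rfl⟩, huv⟩
      have htri : ∀ i j : ℕ, ∀ hi : i < 3, ∀ hj : j < 3, i ≠ j →
          (tri ⊔ edge u v).Adj (⟨i, by omega⟩ : Fin n) (⟨j, by omega⟩ : Fin n) := by
        intro i j hi hj hij
        exact Or.inl ⟨by simpa using hij, hi, hj⟩
      by_cases hv0 : v.val = 0
      · refine ⟨u, v, ⟨1, by omega⟩, ⟨2, by omega⟩, hedge,
          htri 1 2 (by norm_num) (by norm_num) (by norm_num), ?_, ?_, ?_, ?_⟩ <;>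
        · rw [Ne, Fin.ext_iff]
          simp only
          omega
      · by_cases hv1 : v.val = 1
        · refine ⟨u, v, ⟨0, by omega⟩, ⟨2, by omega⟩, hedge,
            htri 0 2 (by norm_num) (by norm_num) (by norm_num), ?_, ?_, ?_, ?_⟩ <;>
          · rw [Ne, Fin.ext_iff]
            simp only
            omega
        · refine ⟨u, v, ⟨0, by omega⟩, ⟨1, by omega⟩, hedge,
            htri 0 1 (by norm_num) (by norm_num) (by norm_num), ?_, ?_, ?_, ?_⟩ <;>
          · rw [Ne, Fin.ext_iff]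
            simp only
            omega
    rcases hout with h | h
    · exact key u v huv h
    · rw [edge_comm]
      exact key v u huv.symm h

theorem edgeNumbers_eq {n : ℕ} (hn : 4 ≤ n) : edgeNumbers fam n = {3, n - 1} := by
  ext m
  rw [Set.mem_insert_iff, Set.mem_singleton_iff]
  constructor
  · rintro ⟨G, hG, rfl⟩
    exact classify hn G hG
  · rintro (rfl | rfl)
    · exact mem_tri hn
    · exact mem_star hn

theorem gap_eq {n : ℕ} (hn : 4 ≤ n) : gap fam n = n - 4 := by
  unfold gap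
  rw [edgeNumbers_eq hn, csSup_pair, csInf_pair]
  have h1 : max 3 (n - 1) = n - 1 := by omega
  have h2 : min 3 (n - 1) = 3 := by omega
  rw [h1, h2]
  omega

theorem ncard_eq {n : ℕ} (hn : 5 ≤ n) : (edgeNumbers fam n).ncard = 2 := by
  rw [edgeNumbers_eq (by omega), Set.ncard_pair]
  omega

/-- Both questions have a negative answer, for the suitable set consisting of `2K_2` alone. -/
theorem result : ∃ 𝓗 : Set (Σ k : ℕ, SimpleGraph (Fin k)), Suitable 𝓗 ∧
    (∀ n : ℕ, 4 ≤ n → edgeNumbers 𝓗 n = {3, n - 1}) ∧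
    -- Q1 fails
    (∀ C : ℝ, ∃ n : ℕ, 1 ≤ n ∧ C < (gap 𝓗 n : ℝ) - ((edgeNumbers 𝓗 n).ncard : ℝ)) ∧
    -- the class is linearly impure
    liminf (fun n : ℕ => (gap 𝓗 n : ℝ) / n) atTop = 1 ∧
    -- Q2 fails
    Tendsto (fun n : ℕ => ((edgeNumbers 𝓗 n).ncard : ℝ) / (gap 𝓗 n : ℝ)) atTop (𝓝 0) := by
  refine ⟨fam, suitable_fam, fun n hn => edgeNumbers_eq hn, ?_, ?_, ?_⟩
  · intro C
    obtain ⟨m, hm⟩ := exists_nat_gt C
    refine ⟨m + 6, by omega, ?_⟩
    rw [gap_eq (by omega), ncard_eq (by omega)]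
    have : m + 6 - 4 = m + 2 := by omega
    rw [this]
    push_cast
    linarith
  · apply Tendsto.liminf_eq
    have h1 : Tendsto (fun n : ℕ => 1 - 4 / (n : ℝ)) atTop (𝓝 (1 - 0)) :=
      tendsto_const_nhds.sub (tendsto_const_div_atTop_nhds_zero_nat 4)
    rw [sub_zero] at h1
    refine h1.congr' ?_
    filter_upwards [eventually_ge_atTop 4] with n hn
    rw [gap_eq hn, Nat.cast_sub hn]
    have : (n : ℝ) ≠ 0 := by
      have : 0 < n := by omega
      positivity
    field_simp
    push_cast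
    ring
  · have h1 : Tendsto (fun n : ℕ => (2 : ℝ) / ((n - 4 : ℕ) : ℝ)) atTop (𝓝 0) :=
      (tendsto_const_div_atTop_nhds_zero_nat 2).comp (tendsto_sub_atTop_nat 4)
    refine h1.congr' ?_
    filter_upwards [eventually_ge_atTop 5] with n hn
    rw [gap_eq (by omega), ncard_eq hn]
    norm_num

end Pool.Agent.Results.MP_4dddeb_co.TwoDisjointEdges
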